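import Pool.Agent.Helper76.PfcMono

/-!
# MP_acdd99_gt: point-finite cellularity of powers of `C_p(X)`

For every Tychonoff space `X` and every nonempty index set `ι`, in arbitrary universes,
`p((C_p X)^ι) = p(C_p X)`.
-/

set_option autoImplicit false
universe u v w

namespace Pool.Agent.Results.MP_acdd99_gt.Full

/-- `C_p(X)`: the continuous real-valued functions on `X` with the topology of pointwise
convergence, that is, the subspace topology from the product `ℝ^X`. -/
abbrev Cp (X : Type u) [TopologicalSpace X] : Type u := {f : X → ℝ // Continuous f}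

/-- A family of subsets is point-finite if every point lies in only finitely many members. -/
def PointFinite {Z : Type u} (𝒰 : Set (Set Z)) : Prop := ∀ z : Z, {U | U ∈ 𝒰 ∧ z ∈ U}.Finite

/-- the cardinalities of the point-finite families of nonempty open subsets of `Z` -/
def familySizes (Z : Type u) [TopologicalSpace Z] : Set Cardinal.{u} :=
  {c | ∃ 𝒰 : Set (Set Z), (∀ U ∈ 𝒰, IsOpen U ∧ U.Nonempty) ∧ PointFinite 𝒰 ∧ c = Cardinal.mk ↥𝒰}

/-- the point-finite cellularity
`p(Z) = ω + sup {|𝒰| : 𝒰 is a point-finite family of nonempty open subsets of Z}` -/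
noncomputable def pfc (Z : Type u) [TopologicalSpace Z] : Cardinal.{u} :=
  Cardinal.aleph0 + sSup (familySizes Z)

theorem bdd (Z : Type u) [TopologicalSpace Z] : BddAbove (familySizes Z) := by
  refine ⟨Cardinal.mk (Set Z), ?_⟩
  rintro c ⟨𝒰, -, -, rfl⟩
  exact Cardinal.mk_set_le 𝒰

/-- the point-finite cellularity is monotone under continuous surjections -/
theorem pfc_le {Y : Type v} {Z : Type w} [TopologicalSpace Y] [TopologicalSpace Z] (g : Y → Z)
    (hg : Continuous g) (hs : Function.Surjective g) :
    Cardinal.lift.{v} (pfc Z) ≤ Cardinal.lift.{w} (pfc Y) := by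
  unfold pfc
  rw [Cardinal.lift_add, Cardinal.lift_add, Cardinal.lift_aleph0, Cardinal.lift_aleph0]
  refine add_le_add le_rfl ?_
  rw [Cardinal.lift_sSup (bdd Z), Cardinal.lift_sSup (bdd Y)]
  apply csSup_le'
  rintro _ ⟨c, ⟨𝒰, h1, h2, rfl⟩, rfl⟩
  have hinj : Function.Injective (Set.preimage g) := hs.preimage_injective
  have hmem : Cardinal.mk ↥(Set.preimage g '' 𝒰) ∈ familySizes Y := by
    refine ⟨Set.preimage g '' 𝒰, ?_, ?_, rfl⟩
    · rintro _ ⟨U, hU, rfl⟩
      exact ⟨(h1 U hU).1.preimage hg, (h1 U hU).2.preimage hs⟩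
    · intro y
      refine ((h2 (g y)).image (Set.preimage g)).subset ?_
      rintro _ ⟨⟨U, hU, rfl⟩, hy⟩
      exact ⟨U, ⟨hU, hy⟩, rfl⟩
  have he : Cardinal.lift.{v} (Cardinal.mk ↥𝒰) =
      Cardinal.lift.{w} (Cardinal.mk ↥(Set.preimage g '' 𝒰)) :=
    (Cardinal.mk_image_eq_lift _ _ hinj).symm
  rw [he]
  apply le_csSup
  · exact Cardinal.bddAbove_image _ (bdd Y)
  · exact ⟨_, hmem, rfl⟩

/-- the equality for spaces and index sets in one universe -/
theorem mono (X : Type u) [TopologicalSpace X] [T35Space X] (ι : Type u) [Nonempty ι] :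
    pfc (ι → Cp X) = pfc (Cp X) := by
  have h := Pool.Agent.Helper76.pfc_mono X ι
  show Cardinal.aleph0 + sSup (familySizes (ι → Cp X)) =
    Cardinal.aleph0 + sSup (familySizes (Cp X))
  congr 1
  exact h.symm

/-- the comparison map of `C_p` under a change of universe -/
def toULift (X : Type u) [TopologicalSpace X] (f : Cp X) : Cp (ULift.{v} X) :=
  ⟨fun x => f.1 x.down, f.2.comp continuous_uliftDown⟩

/-- its inverse -/
def ofULift (X : Type u) [TopologicalSpace X] (f : Cp (ULift.{v} X)) : Cp X :=
  ⟨fun x => f.1 (ULift.up x), f.2.comp continuous_uliftUp⟩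

theorem continuous_toULift (X : Type u) [TopologicalSpace X] :
    Continuous (toULift.{u, v} X) := by
  refine Continuous.subtype_mk (continuous_pi fun x => ?_) _
  exact (continuous_apply x.down).comp continuous_subtype_val

theorem continuous_ofULift (X : Type u) [TopologicalSpace X] :
    Continuous (ofULift.{u, v} X) := by
  refine Continuous.subtype_mk (continuous_pi fun x => ?_) _
  exact (continuous_apply (ULift.up x)).comp continuous_subtype_val

theorem pfc_Cp_ulift (X : Type u) [TopologicalSpace X] :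
    pfc (Cp (ULift.{v} X)) = Cardinal.lift.{v} (pfc (Cp X)) := by
  have h1 := pfc_le (toULift.{u, v} X) (continuous_toULift X)
    (fun f => ⟨ofULift X f, by rfl⟩)
  have h2 := pfc_le (ofULift.{u, v} X) (continuous_ofULift X)
    (fun f => ⟨toULift X f, by rfl⟩)
  have h3 := le_antisymm h1 h2
  have e1 : Cardinal.lift.{u} (pfc (Cp (ULift.{v} X))) = pfc (Cp (ULift.{v} X)) :=
    Cardinal.lift_id'.{u, v} _
  have e2 : Cardinal.lift.{max u v} (pfc (Cp X)) = Cardinal.lift.{v} (pfc (Cp X)) :=
    congrFun Cardinal.lift_umax _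
  rw [e1, e2] at h3
  exact h3

/-- For every Tychonoff space `X` and every nonempty index set `ι` (that is, for every cardinal
`κ = |ι| ≥ 1`; the universes of `X` and `ι` are arbitrary),
`p(C_p(X)) = p((C_p(X))^ι)`. -/
theorem result (X : Type u) [TopologicalSpace X] [T35Space X] (ι : Type v) [Nonempty ι] :
    Cardinal.lift.{v} (pfc (Cp X)) = pfc (ι → Cp X) := by
  have : T35Space (ULift.{v} X) := Topology.IsEmbedding.uliftDown.t35Space
  have h := mono (ULift.{v} X) (ULift.{u} ι)
  rw [pfc_Cp_ulift X] at h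
  let g : (ULift.{u} ι → Cp (ULift.{v} X)) → (ι → Cp X) := fun y i => ofULift X (y (ULift.up i))
  let k : (ι → Cp X) → (ULift.{u} ι → Cp (ULift.{v} X)) := fun y i => toULift X (y i.down)
  have hg : Continuous g :=
    continuous_pi fun i => (continuous_ofULift X).comp (continuous_apply (ULift.up i))
  have hk : Continuous k :=
    continuous_pi fun i => (continuous_toULift X).comp (continuous_apply i.down)
  have h1 := pfc_le g hg (fun y => ⟨k y, rfl⟩)
  have h2 := pfc_le k hk (fun y => ⟨g y, rfl⟩)
  rw [Cardinal.lift_id, Cardinal.lift_id] at h1 h2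
  rw [← h]
  exact le_antisymm h2 h1

end Pool.Agent.Results.MP_acdd99_gt.Full
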